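import Mathlib
import Pool.Agent.Zk46.FD.Defs

/-!
# Module NV: the digit form does not vanish at short vectors
-/

set_option autoImplicit false

namespace Pool.Agent.Zk67.FD46

open Finset Pool.Agent.Zk46.FD

theorem nv_main (b M : ℕ) (hb : 2 ≤ b) (v : Fin (M + 1) → ℤ) (hv : nm v < b)
    (h0 : ∑ j, (cf b M j : ℤ) * v j = 0) : ∀ n : ℕ, ∀ hn : n ≤ M, v ⟨n, by omega⟩ = 0 := by
  have hvj : ∀ j, (v j).natAbs < b := fun j =>
    lt_of_le_of_lt (Finset.le_sup (f := fun j => (v j).natAbs) (Finset.mem_univ j)) hv
  intro n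
  induction n using Nat.strong_induction_on with
  | _ n ih =>
    intro hn
    have hdvd : ((b : ℤ) ^ (n + 1) ∣ (b : ℤ) ^ n * v ⟨n, by omega⟩) ∨ v ⟨n, by omega⟩ = 0 := by
      rcases Nat.lt_or_ge n M with h | h
      · left
        have h1 : (b : ℤ) ^ (n + 1) ∣ ∑ j ∈ (univ : Finset (Fin (M + 1))).erase ⟨n, by omega⟩,
            (cf b M j : ℤ) * v j := by
          refine Finset.dvd_sum fun j hj => ?_
          have hne := Finset.ne_of_mem_erase hj
          have hne' : (j : ℕ) ≠ n := fun h' => hne (Fin.ext h')
          rcases Nat.lt_or_ge (j : ℕ) n with h2 | h2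
          · have h3 := ih j h2 (by omega)
            have h4 : v j = 0 := h3
            rw [h4, mul_zero]
            exact dvd_zero _
          · refine Dvd.dvd.mul_right ?_ _
            unfold cf
            have hj2 := j.2
            split_ifs with h3
            · push_cast
              exact dvd_add (pow_dvd_pow _ (by omega)) (pow_dvd_pow _ (by omega))
            · push_cast
              exact pow_dvd_pow _ (by omega)
        rw [← Finset.add_sum_erase _ _ (Finset.mem_univ (⟨n, by omega⟩ : Fin (M + 1)))] at h0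
        have h2 : (b : ℤ) ^ (n + 1) ∣ (cf b M ⟨n, by omega⟩ : ℤ) * v ⟨n, by omega⟩ := by
          have h3 := (dvd_add_left h1).1 (h0 ▸ dvd_zero ((b : ℤ) ^ (n + 1)))
          exact h3
        unfold cf at h2
        rw [if_pos (show ((⟨n, by omega⟩ : Fin (M + 1)) : ℕ) < M from h)] at h2
        push_cast at h2
        rw [add_mul] at h2
        exact (dvd_add_left ((pow_dvd_pow (b : ℤ)
          (show n + 1 ≤ 2 * M - n by omega)).mul_right _)).1 h2
      · right
        have hnM : n = M := le_antisymm hn h
        have h1 : ∑ j ∈ (univ : Finset (Fin (M + 1))).erase ⟨n, by omega⟩,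
            (cf b M j : ℤ) * v j = 0 := by
          refine Finset.sum_eq_zero fun j hj => ?_
          have hne := Finset.ne_of_mem_erase hj
          have hne' : (j : ℕ) ≠ n := fun h' => hne (Fin.ext h')
          have hj2 := j.2
          have h4 : v j = 0 := ih j (by omega) (by omega)
          rw [h4, mul_zero]
        rw [← Finset.add_sum_erase _ _ (Finset.mem_univ (⟨n, by omega⟩ : Fin (M + 1))), h1,
          add_zero] at h0
        rcases mul_eq_zero.1 h0 with h2 | h2
        · exfalso
          unfold cf at h2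
          rw [if_neg (show ¬ ((⟨n, by omega⟩ : Fin (M + 1)) : ℕ) < M from by
            change ¬ n < M
            omega)] at h2
          push_cast at h2
          have : (b : ℤ) ^ M ≠ 0 := pow_ne_zero _ (by omega)
          exact this h2
        · exact h2
    rcases hdvd with h | h
    · have hbn : (b : ℤ) ^ n ≠ 0 := pow_ne_zero _ (by omega)
      rw [pow_succ] at h
      have h1 : (b : ℤ) ∣ v ⟨n, by omega⟩ := (mul_dvd_mul_iff_left hbn).1 h
      have h2 : |v ⟨n, by omega⟩| < (b : ℤ) := by
        rw [Int.abs_eq_natAbs]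
        exact_mod_cast hvj ⟨n, by omega⟩
      exact Int.eq_zero_of_abs_lt_dvd h1 h2
    · exact h

theorem t_NV : S_NV := by
  intro b M hb hM
  refine ⟨fun v hv hn h0 => hv ?_, ?_⟩
  · funext j
    exact nv_main b M hb v hn h0 j (by have := j.2; omega)
  · intro g hg
    have h0 := hg ⟨0, by omega⟩
    have h1 := hg ⟨M, by omega⟩
    unfold cf at h0 h1
    rw [if_pos (show ((⟨0, by omega⟩ : Fin (M + 1)) : ℕ) < M from by
      change 0 < M
      omega)] at h0
    rw [if_neg (show ¬ ((⟨M, by omega⟩ : Fin (M + 1)) : ℕ) < M from by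
      change ¬ M < M
      omega)] at h1
    change g ∣ b ^ 0 + b ^ (2 * M - 0) at h0
    rw [pow_zero, Nat.sub_zero] at h0
    have h2 : g ∣ b ^ (2 * M) := h1.trans (pow_dvd_pow _ (by omega))
    exact Nat.dvd_one.1 ((Nat.dvd_add_left h2).1 h0)

end Pool.Agent.Zk67.FD46
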