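import Mathlib
import Pool.Agent.Zk46.FD.Defs

/-!
# Module PIG: Dirichlet's pigeonhole principle
-/

set_option autoImplicit false

namespace Pool.Agent.Zk67.FD46

open Finset Pool.Agent.Zk46.FD

theorem t_PIG : S_PIG := by
  intro d c q hd hq
  have hex : ∃ m : ℕ, q < (m + 1) ^ d := by
    refine ⟨q, ?_⟩
    calc q < q + 1 := Nat.lt_succ_self q
      _ = (q + 1) ^ 1 := (pow_one _).symm
      _ ≤ (q + 1) ^ d := Nat.pow_le_pow_right (Nat.succ_pos q) hd
  classical
  let m := Nat.find hex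
  have hm : q < (m + 1) ^ d := Nat.find_spec hex
  have hm' : m ^ d ≤ q := by
    rcases Nat.eq_zero_or_pos m with h0 | h0
    · rw [h0, zero_pow (by omega)]
      exact Nat.zero_le q
    · have h1 := Nat.find_min hex (m := m - 1) (by omega)
      rw [Nat.sub_add_cancel h0] at h1
      omega
  have : NeZero q := ⟨by omega⟩
  let f : (Fin d → Fin (m + 1)) → ZMod q := fun x => ((∑ j, c j * (x j : ℕ) : ℕ) : ZMod q)
  have hcard : Fintype.card (ZMod q) < Fintype.card (Fin d → Fin (m + 1)) := by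
    rw [ZMod.card, Fintype.card_fun, Fintype.card_fin, Fintype.card_fin]
    exact hm
  obtain ⟨x, y, hxy, hf⟩ := Fintype.exists_ne_map_eq_of_card_lt f hcard
  refine ⟨fun j => ((x j : ℕ) : ℤ) - ((y j : ℕ) : ℤ), ?_, ?_, ?_⟩
  · intro h
    apply hxy
    funext j
    have h1 := congrFun h j
    simp only [Pi.zero_apply] at h1
    apply Fin.ext
    omega
  · unfold InL
    have h1 : ∑ j, (c j : ℤ) * (((x j : ℕ) : ℤ) - ((y j : ℕ) : ℤ)) =
        ((∑ j, c j * (x j : ℕ) : ℕ) : ℤ) - ((∑ j, c j * (y j : ℕ) : ℕ) : ℤ) := by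
      push_cast
      rw [← Finset.sum_sub_distrib]
      refine Finset.sum_congr rfl fun j _ => ?_
      ring
    rw [h1, ← ZMod.intCast_zmod_eq_zero_iff_dvd]
    push_cast
    have h2 : ((∑ j, c j * (x j : ℕ) : ℕ) : ZMod q) = ((∑ j, c j * (y j : ℕ) : ℕ) : ZMod q) := hf
    push_cast at h2
    rw [h2, sub_self]
  · refine le_trans (Nat.pow_le_pow_left ?_ d) hm'
    unfold nm
    refine Finset.sup_le fun j _ => ?_
    have h1 : ((x j : ℕ)) < m + 1 := (x j).2
    have h2 : ((y j : ℕ)) < m + 1 := (y j).2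
    change (((x j : ℕ) : ℤ) - ((y j : ℕ) : ℤ)).natAbs ≤ m
    omega

end Pool.Agent.Zk67.FD46
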